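import Mathlib

set_option autoImplicit false

namespace Pool.Agent.Results.MP_557f7f_co.SuperpatternFails

open Polynomial Matrix

/-- A real matrix realizes a sign pattern when every entry has the prescribed sign. -/
def Realizes {n : ℕ} (A : Matrix (Fin n) (Fin n) ℝ) (S : Matrix (Fin n) (Fin n) SignType) :
    Prop :=
  ∀ i j, SignType.sign (A i j) = S i j

/-- A sign pattern of order `n` is spectrally arbitrary when every monic real polynomial of
degree `n` is the characteristic polynomial of a realization. -/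
def SpectrallyArbitrary {n : ℕ} (S : Matrix (Fin n) (Fin n) SignType) : Prop :=
  ∀ p : ℝ[X], p.Monic → p.natDegree = n →
    ∃ A : Matrix (Fin n) (Fin n) ℝ, Realizes A S ∧ A.charpoly = p

/-- `S'` is a superpattern of `S` when it keeps every nonzero entry of `S`. -/
def Superpattern {n : ℕ} (S' S : Matrix (Fin n) (Fin n) SignType) : Prop :=
  ∀ i j, S i j ≠ 0 → S' i j = S i j

/-! ### Determinants -/

theorem det_four {R : Type} [CommRing R] (A : Matrix (Fin 4) (Fin 4) R) :
    A.det = A 0 0 * (A 1 1 * (A 2 2 * A 3 3 - A 2 3 * A 3 2) - A 1 2 * (A 2 1 * A 3 3 - A 2 3 * A 3 1)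
        + A 1 3 * (A 2 1 * A 3 2 - A 2 2 * A 3 1))
      - A 0 1 * (A 1 0 * (A 2 2 * A 3 3 - A 2 3 * A 3 2) - A 1 2 * (A 2 0 * A 3 3 - A 2 3 * A 3 0)
        + A 1 3 * (A 2 0 * A 3 2 - A 2 2 * A 3 0))
      + A 0 2 * (A 1 0 * (A 2 1 * A 3 3 - A 2 3 * A 3 1) - A 1 1 * (A 2 0 * A 3 3 - A 2 3 * A 3 0)
        + A 1 3 * (A 2 0 * A 3 1 - A 2 1 * A 3 0))
      - A 0 3 * (A 1 0 * (A 2 1 * A 3 2 - A 2 2 * A 3 1) - A 1 1 * (A 2 0 * A 3 2 - A 2 2 * A 3 0)
        + A 1 2 * (A 2 0 * A 3 1 - A 2 1 * A 3 0)) := by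
  rw [det_succ_row_zero]
  simp [Fin.sum_univ_succ, det_fin_three, Fin.succAbove]
  ring

/-- The matrices of order four that are used below. -/
def M4 (a b c d e f g h k p : ℝ) : Matrix (Fin 4) (Fin 4) ℝ :=
  !![a, b, -c, p; -d, -e, f, 0; 0, 0, 0, -g; h, k, 0, 0]

theorem M4_charpoly (a b c d e f g h k p : ℝ) :
    (M4 a b c d e f g h k p).charpoly = X ^ 4 + C (e - a) * X ^ 3
      + C (b * d - a * e - p * h) * X ^ 2
      + C (f * g * k + p * k * d - c * g * h - e * p * h) * X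
      + C (b * f * g * h + c * d * g * k - a * f * g * k - e * c * g * h) := by
  have h : charmatrix (M4 a b c d e f g h k p) =
      !![X - C a, -C b, C c, -C p; C d, X + C e, -C f, 0; 0, 0, X, C g; -C h, -C k, 0, X] := by
    ext i j
    fin_cases i <;> fin_cases j <;> simp [M4]
  rw [Matrix.charpoly, h, det_four]
  simp only [map_add, map_sub, map_mul]
  simp
  ring

/-- The sign pattern of order four whose direct sums are used. -/
def P4 : Matrix (Fin 4) (Fin 4) SignType :=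
  !![1, 1, -1, 0; -1, -1, 1, 0; 0, 0, 0, -1; 1, 1, 0, 0]

/-- Its superpattern, with one further positive entry. -/
def P4' : Matrix (Fin 4) (Fin 4) SignType :=
  !![1, 1, -1, 1; -1, -1, 1, 0; 0, 0, 0, -1; 1, 1, 0, 0]

/-- The full sign pattern of order two with a positive row and a negative row. -/
def T2 : Matrix (Fin 2) (Fin 2) SignType := !![1, 1; -1, -1]

/-! ### The block of order four -/

theorem P4_real (a b c d e f : ℝ) (ha : 0 < a) (hb : 0 < b) (hc : 0 < c) (hd : 0 < d)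
    (he : 0 < e) (hf : 0 < f) :
    ∀ i j, SignType.sign (M4 a b c d e f 1 1 1 0 i j) = P4 i j := by
  intro i j
  fin_cases i <;> fin_cases j <;>
    simp [M4, P4, sign_pos ha, sign_pos hb, sign_pos hc, sign_pos hd, sign_pos he, sign_pos hf,
      Left.sign_neg, sign_pos (zero_lt_one' ℝ)]

/-- Every quartic with positive constant coefficient is realized. -/
theorem P4_pos (f1 f2 f3 f4 : ℝ) (h4 : 0 < f4) :
    ∃ M : Matrix (Fin 4) (Fin 4) ℝ, (∀ i j, SignType.sign (M i j) = P4 i j) ∧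
      M.charpoly = X ^ 4 + C f1 * X ^ 3 + C f2 * X ^ 2 + C f3 * X + C f4 := by
  obtain ⟨s, hs3, hR⟩ : ∃ s : ℝ, f3 * s ≤ 0 ∧ 0 < s ^ 2 - f1 * s + f2 := by
    set t := |f1| + |f2| + 1 with ht
    have ht0 : 0 < t := by positivity
    have h1 : |f1| * t ≤ t ^ 2 - (|f2| + 1) * t := by rw [ht]; nlinarith [abs_nonneg f1]
    have h2 : |f2| < (|f2| + 1) * t := by
      have : (|f2| + 1) * 1 ≤ (|f2| + 1) * t := by
        apply mul_le_mul_of_nonneg_left _ (by positivity)
        rw [ht]; linarith [abs_nonneg f1, abs_nonneg f2]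
      linarith
    rcases le_total f3 0 with h | h
    · refine ⟨t, mul_nonpos_of_nonpos_of_nonneg h ht0.le, ?_⟩
      have e1 : f1 * t ≤ |f1| * t := mul_le_mul_of_nonneg_right (le_abs_self _) ht0.le
      have e2 := neg_abs_le f2
      linarith
    · refine ⟨-t, mul_nonpos_of_nonneg_of_nonpos h (by linarith), ?_⟩
      have e1 : -(f1 * t) ≤ |f1| * t := by
        rw [← neg_mul]
        exact mul_le_mul_of_nonneg_right (neg_le_abs _) ht0.le
      have e2 := neg_abs_le f2
      have e3 : (-t) ^ 2 = t ^ 2 := by ring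
      rw [e3]
      linarith
  set R := s ^ 2 - f1 * s + f2 with hRdef
  set D := f4 - f3 * s with hD
  have hD0 : 0 < D := by rw [hD]; linarith
  set a := |f1| + |s| + 1 + |f3| * R / D with ha
  have hq : 0 ≤ |f3| * R / D := by positivity
  have ha0 : 0 < a := by
    have := abs_nonneg f1
    have := abs_nonneg s
    linarith
  have hs1 := neg_abs_le s
  have hs2 := le_abs_self s
  have hf1 := neg_abs_le f1
  have hb0 : 0 < a + s := by
    have := abs_nonneg f1
    linarith
  have he0 : 0 < a + f1 := by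
    have := abs_nonneg s
    linarith
  have hd0 : 0 < a + f1 - s + R / (a + s) := by
    have : 0 < R / (a + s) := by positivity
    linarith
  have hc0 : 0 < (a + s) * D / R := by positivity
  have hf0 : 0 < (a + s) * D / R + f3 := by
    have h1 : |f3| < (a + s) * D / R := by
      rw [lt_div_iff₀ hR]
      have h2 : |f3| * R / D < a + s := by
        have := abs_nonneg f1
        linarith
      rw [div_lt_iff₀ hD0] at h2
      exact h2
    have := neg_abs_le f3
    linarith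
  refine ⟨M4 a (a + s) ((a + s) * D / R) (a + f1 - s + R / (a + s)) (a + f1)
    ((a + s) * D / R + f3) 1 1 1 0, P4_real _ _ _ _ _ _ ha0 hb0 hc0 hd0 he0 hf0, ?_⟩
  rw [M4_charpoly]
  have g1 : a + f1 - a = f1 := by ring
  have g2 : (a + s) * (a + f1 - s + R / (a + s)) - a * (a + f1) - 0 * 1 = f2 := by
    field_simp
    rw [hRdef]; ring
  have g3 : ((a + s) * D / R + f3) * 1 * 1 + 0 * 1 * (a + f1 - s + R / (a + s))
      - (a + s) * D / R * 1 * 1 - (a + f1) * 0 * 1 = f3 := by ring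
  have g4 : (a + s) * ((a + s) * D / R + f3) * 1 * 1
      + (a + s) * D / R * (a + f1 - s + R / (a + s)) * 1 * 1
      - a * ((a + s) * D / R + f3) * 1 * 1 - (a + f1) * ((a + s) * D / R) * 1 * 1 = f4 := by
    have : (a + s) * D / R * (R / (a + s)) = D := by field_simp
    linear_combination this + hD
  rw [g1, g2, g3, g4]

/-- Every quartic divisible by `X ^ 2` with real roots is realized. -/
theorem P4_zero (al be : ℝ) :
    ∃ M : Matrix (Fin 4) (Fin 4) ℝ, (∀ i j, SignType.sign (M i j) = P4 i j) ∧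
      M.charpoly = X ^ 4 + C (al + be) * X ^ 3 + C (al * be) * X ^ 2 := by
  set a := |al| + |be| + 1 with ha
  have h1 := abs_nonneg al
  have h2 := abs_nonneg be
  have h3 := neg_abs_le al
  have h4 := neg_abs_le be
  refine ⟨M4 a (a + al) 1 (a + be) (a + al + be) 1 1 1 1 0,
    P4_real _ _ _ _ _ _ (by linarith) (by linarith) one_pos (by linarith) (by linarith)
      one_pos, ?_⟩
  rw [M4_charpoly]
  have g1 : a + al + be - a = al + be := by ring
  have g2 : (a + al) * (a + be) - a * (a + al + be) - 0 * 1 = al * be := by ring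
  have g3 : (1 : ℝ) * 1 * 1 + 0 * 1 * (a + be) - 1 * 1 * 1 - (a + al + be) * 0 * 1 = 0 := by ring
  have g4 : (a + al) * 1 * 1 * 1 + 1 * (a + be) * 1 * 1 - a * 1 * 1 * 1
      - (a + al + be) * 1 * 1 * 1 = 0 := by ring
  rw [g1, g2, g3, g4]
  simp

/-- The block of order four realizes the product of two quadratics whose constant terms have the
same nonzero sign or vanish both. -/
theorem P4_pair (al1 be1 al2 be2 : ℝ) (h : 0 < be1 * be2 ∨ (be1 = 0 ∧ be2 = 0)) :
    ∃ M : Matrix (Fin 4) (Fin 4) ℝ, (∀ i j, SignType.sign (M i j) = P4 i j) ∧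
      M.charpoly = (X ^ 2 + C al1 * X + C be1) * (X ^ 2 + C al2 * X + C be2) := by
  rcases h with h | ⟨h1, h2⟩
  · obtain ⟨M, hM, hMc⟩ := P4_pos (al1 + al2) (be1 + be2 + al1 * al2) (al1 * be2 + al2 * be1)
      (be1 * be2) h
    refine ⟨M, hM, ?_⟩
    rw [hMc]
    simp only [map_add, map_mul]
    ring
  · obtain ⟨M, hM, hMc⟩ := P4_zero al1 al2
    refine ⟨M, hM, ?_⟩
    rw [hMc, h1, h2]
    simp only [map_add, map_mul, map_zero]
    ring

/-- The pattern `T2` realizes every monic quadratic. -/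
theorem T2_quad (al be : ℝ) :
    ∃ M : Matrix (Fin 2) (Fin 2) ℝ, (∀ i j, SignType.sign (M i j) = T2 i j) ∧
      M.charpoly = X ^ 2 + C al * X + C be := by
  set a := |al| + |be| + 1 with ha
  have h1 := abs_nonneg al
  have h2 := abs_nonneg be
  have h3 := neg_abs_le al
  have h4 := neg_abs_le be
  have ha0 : 0 < a := by linarith
  have he0 : 0 < a + al := by linarith
  have hd0 : 0 < be + a * (a + al) := by
    have e1 : 1 ≤ a + al := by linarith
    have e2 : a * 1 ≤ a * (a + al) := mul_le_mul_of_nonneg_left e1 ha0.le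
    linarith
  refine ⟨!![a, 1; -(be + a * (a + al)), -(a + al)], ?_, ?_⟩
  · intro i j
    fin_cases i <;> fin_cases j <;>
      simp only [T2, Fin.zero_eta, Fin.mk_one, Fin.isValue, of_apply, cons_val', cons_val_zero,
        cons_val_one, cons_val_fin_one]
    · exact sign_pos ha0
    · exact sign_pos one_pos
    · exact sign_neg (neg_neg_of_pos hd0)
    · exact sign_neg (neg_neg_of_pos he0)
  · rw [charpoly_fin_two]
    simp [trace_fin_two, det_fin_two]
    ring

/-- The characteristic polynomial of a block diagonal matrix is the product over the blocks. -/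
theorem charpoly_blockDiag {k m : ℕ} (M : Fin k → Matrix (Fin m) (Fin m) ℝ) :
    (blockDiagonal M).charpoly = ∏ i, (M i).charpoly := by
  have h : charmatrix (blockDiagonal M) = blockDiagonal (fun i => charmatrix (M i)) := by
    ext ⟨a, i⟩ ⟨b, j⟩
    by_cases hij : i = j
    · subst hij
      by_cases hab : a = b
      · subst hab
        simp [blockDiagonal_apply]
      · simp [blockDiagonal_apply, hab]
    · simp [blockDiagonal_apply, hij]
  rw [Matrix.charpoly, h, det_blockDiagonal]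
  rfl

/-! ### The patterns of order eight -/

/-- The direct sum of a block of order four with two copies of `T2`. -/
def PS (B : Matrix (Fin 4) (Fin 4) SignType) :
    Matrix (Fin 4 ⊕ (Fin 2 × Fin 2)) (Fin 4 ⊕ (Fin 2 × Fin 2)) SignType :=
  fromBlocks B 0 0 (blockDiagonal fun _ => T2)

/-- The index equivalence. -/
def idx : Fin 4 ⊕ (Fin 2 × Fin 2) ≃ Fin 8 :=
  (Equiv.sumCongr (Equiv.refl (Fin 4)) (finProdFinEquiv (m := 2) (n := 2))).trans
    (finSumFinEquiv (m := 4) (n := 4))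

/-- The same direct sum as a pattern of order eight. -/
def P8 (B : Matrix (Fin 4) (Fin 4) SignType) : Matrix (Fin 8) (Fin 8) SignType :=
  (PS B).reindex idx idx

theorem monic_quad (f : ℝ[X]) (hf : IsMonicOfDegree f 2) :
    ∃ al be : ℝ, f = X ^ 2 + C al * X + C be := by
  refine ⟨f.coeff 1, f.coeff 0, ?_⟩
  have h2 : f.coeff 2 = 1 := by
    have := hf.monic.coeff_natDegree
    rwa [hf.natDegree_eq] at this
  have := eq_quadratic_of_degree_le_two (p := f)
    (natDegree_le_iff_degree_le.1 hf.natDegree_eq.le)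
  rw [h2] at this
  simpa using this

/-- Reduction of realizability by the direct sum to a pair of quadratics. -/
theorem P8_of_pair (al1 be1 al2 be2 al3 be3 al4 be4 : ℝ)
    (h : 0 < be1 * be2 ∨ (be1 = 0 ∧ be2 = 0)) :
    ∃ A : Matrix (Fin 8) (Fin 8) ℝ, Realizes A (P8 P4) ∧
      A.charpoly = (X ^ 2 + C al1 * X + C be1) * (X ^ 2 + C al2 * X + C be2) *
        (X ^ 2 + C al3 * X + C be3) * (X ^ 2 + C al4 * X + C be4) := by
  obtain ⟨M, hM, hMc⟩ := P4_pair al1 be1 al2 be2 h
  obtain ⟨N1, hN1, hN1c⟩ := T2_quad al3 be3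
  obtain ⟨N2, hN2, hN2c⟩ := T2_quad al4 be4
  refine ⟨(fromBlocks M 0 0 (blockDiagonal ![N1, N2])).reindex idx idx, ?_, ?_⟩
  · intro i j
    have key : ∀ x y, SignType.sign ((fromBlocks M 0 0 (blockDiagonal ![N1, N2])) x y)
        = PS P4 x y := by
      rintro (i | ⟨i, k⟩) (j | ⟨j, l⟩)
      · simpa [PS] using hM i j
      · simp [PS]
      · simp [PS]
      · by_cases hkl : k = l
        · subst hkl
          fin_cases k
          · simpa [PS, blockDiagonal_apply] using hN1 i j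
          · simpa [PS, blockDiagonal_apply] using hN2 i j
        · simp [PS, blockDiagonal_apply, hkl]
    exact key (idx.symm i) (idx.symm j)
  · rw [charpoly_reindex, charpoly_fromBlocks_zero₁₂, hMc, charpoly_blockDiag,
      Fin.prod_univ_two]
    simp only [cons_val_zero, cons_val_one]
    rw [hN1c, hN2c]
    ring

/-- The direct sum pattern is spectrally arbitrary. -/
theorem P8_arbitrary : SpectrallyArbitrary (P8 P4) := by
  intro p hp hd
  have hp8 : IsMonicOfDegree p (6 + 2) := ⟨hd, hp⟩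
  obtain ⟨q1, r1, hq1, hr1, e1⟩ :=
    IsMonicOfDegree.eq_isMonicOfDegree_two_mul_isMonicOfDegree (n := 6) hp8
  obtain ⟨q2, r2, hq2, hr2, e2⟩ :=
    IsMonicOfDegree.eq_isMonicOfDegree_two_mul_isMonicOfDegree (n := 4) hr1
  obtain ⟨q3, q4, hq3, hq4, e3⟩ :=
    IsMonicOfDegree.eq_isMonicOfDegree_two_mul_isMonicOfDegree (n := 2) hr2
  obtain ⟨al1, be1, c1⟩ := monic_quad q1 hq1
  obtain ⟨al2, be2, c2⟩ := monic_quad q2 hq2
  obtain ⟨al3, be3, c3⟩ := monic_quad q3 hq3
  obtain ⟨al4, be4, c4⟩ := monic_quad q4 hq4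
  have hpe : p = (X ^ 2 + C al1 * X + C be1) * (X ^ 2 + C al2 * X + C be2) *
        (X ^ 2 + C al3 * X + C be3) * (X ^ 2 + C al4 * X + C be4) := by
    rw [e1, e2, e3, c1, c2, c3, c4]; ring
  have hcases : (0 < be1 * be2 ∨ (be1 = 0 ∧ be2 = 0)) ∨ (0 < be1 * be3 ∨ (be1 = 0 ∧ be3 = 0)) ∨
      (0 < be1 * be4 ∨ (be1 = 0 ∧ be4 = 0)) ∨ (0 < be2 * be3 ∨ (be2 = 0 ∧ be3 = 0)) ∨
      (0 < be2 * be4 ∨ (be2 = 0 ∧ be4 = 0)) ∨ (0 < be3 * be4 ∨ (be3 = 0 ∧ be4 = 0)) := by
    rcases lt_trichotomy be1 0 with h1 | h1 | h1 <;> rcases lt_trichotomy be2 0 with h2 | h2 | h2 <;>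
    rcases lt_trichotomy be3 0 with h3 | h3 | h3 <;> rcases lt_trichotomy be4 0 with h4 | h4 | h4 <;>
    simp [h1, h2, h3, h4, mul_pos_of_neg_of_neg]
  rw [hpe]
  rcases hcases with h | h | h | h | h | h
  · exact P8_of_pair al1 be1 al2 be2 al3 be3 al4 be4 h
  · obtain ⟨A, hA, hAc⟩ := P8_of_pair al1 be1 al3 be3 al2 be2 al4 be4 h
    exact ⟨A, hA, by rw [hAc]; ring⟩
  · obtain ⟨A, hA, hAc⟩ := P8_of_pair al1 be1 al4 be4 al2 be2 al3 be3 h
    exact ⟨A, hA, by rw [hAc]; ring⟩
  · obtain ⟨A, hA, hAc⟩ := P8_of_pair al2 be2 al3 be3 al1 be1 al4 be4 h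
    exact ⟨A, hA, by rw [hAc]; ring⟩
  · obtain ⟨A, hA, hAc⟩ := P8_of_pair al2 be2 al4 be4 al1 be1 al3 be3 h
    exact ⟨A, hA, by rw [hAc]; ring⟩
  · obtain ⟨A, hA, hAc⟩ := P8_of_pair al3 be3 al4 be4 al1 be1 al2 be2 h
    exact ⟨A, hA, by rw [hAc]; ring⟩

/-! ### The superpattern -/

theorem quartic_eq (u3 u2 u1 u0 : ℝ)
    (h : (X : ℝ[X]) ^ 4 + C u3 * X ^ 3 + C u2 * X ^ 2 + C u1 * X + C u0 = X ^ 4) :
    u3 = 0 ∧ u2 = 0 ∧ u1 = 0 ∧ u0 = 0 := by
  refine ⟨?_, ?_, ?_, ?_⟩
  · simpa [coeff_X, coeff_X_pow, coeff_C] using congrArg (fun q : ℝ[X] => q.coeff 3) h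
  · simpa [coeff_X, coeff_X_pow, coeff_C] using congrArg (fun q : ℝ[X] => q.coeff 2) h
  · simpa [coeff_X, coeff_X_pow, coeff_C] using congrArg (fun q : ℝ[X] => q.coeff 1) h
  · simpa [coeff_X, coeff_X_pow, coeff_C] using congrArg (fun q : ℝ[X] => q.coeff 0) h

/-- The superpattern block of order four does not allow nilpotence. -/
theorem P4'_not_nilpotent (M : Matrix (Fin 4) (Fin 4) ℝ)
    (hM : ∀ i j, SignType.sign (M i j) = P4' i j) : M.charpoly ≠ X ^ 4 := by
  intro hc
  have s00 : 0 < M 0 0 := sign_eq_one_iff.1 (by simpa [P4'] using hM 0 0)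
  have s01 : 0 < M 0 1 := sign_eq_one_iff.1 (by simpa [P4'] using hM 0 1)
  have s02 : M 0 2 < 0 := sign_eq_neg_one_iff.1 (by simpa [P4'] using hM 0 2)
  have s03 : 0 < M 0 3 := sign_eq_one_iff.1 (by simpa [P4'] using hM 0 3)
  have s10 : M 1 0 < 0 := sign_eq_neg_one_iff.1 (by simpa [P4'] using hM 1 0)
  have s11 : M 1 1 < 0 := sign_eq_neg_one_iff.1 (by simpa [P4'] using hM 1 1)
  have s12 : 0 < M 1 2 := sign_eq_one_iff.1 (by simpa [P4'] using hM 1 2)
  have s13 : M 1 3 = 0 := by simpa [P4'] using hM 1 3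
  have s20 : M 2 0 = 0 := by simpa [P4'] using hM 2 0
  have s21 : M 2 1 = 0 := by simpa [P4'] using hM 2 1
  have s22 : M 2 2 = 0 := by simpa [P4'] using hM 2 2
  have s23 : M 2 3 < 0 := sign_eq_neg_one_iff.1 (by simpa [P4'] using hM 2 3)
  have s30 : 0 < M 3 0 := sign_eq_one_iff.1 (by simpa [P4'] using hM 3 0)
  have s31 : 0 < M 3 1 := sign_eq_one_iff.1 (by simpa [P4'] using hM 3 1)
  have s32 : M 3 2 = 0 := by simpa [P4'] using hM 3 2
  have s33 : M 3 3 = 0 := by simpa [P4'] using hM 3 3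
  obtain ⟨a, ha⟩ : ∃ a, M 0 0 = a := ⟨_, rfl⟩
  obtain ⟨b, hb⟩ : ∃ b, M 0 1 = b := ⟨_, rfl⟩
  obtain ⟨c, hc'⟩ : ∃ c, M 0 2 = -c := ⟨-M 0 2, by ring⟩
  obtain ⟨p, hp⟩ : ∃ p, M 0 3 = p := ⟨_, rfl⟩
  obtain ⟨d, hd⟩ : ∃ d, M 1 0 = -d := ⟨-M 1 0, by ring⟩
  obtain ⟨e, he⟩ : ∃ e, M 1 1 = -e := ⟨-M 1 1, by ring⟩
  obtain ⟨f, hf⟩ : ∃ f, M 1 2 = f := ⟨_, rfl⟩
  obtain ⟨g, hg⟩ : ∃ g, M 2 3 = -g := ⟨-M 2 3, by ring⟩
  obtain ⟨h, hh⟩ : ∃ h, M 3 0 = h := ⟨_, rfl⟩
  obtain ⟨k, hk⟩ : ∃ k, M 3 1 = k := ⟨_, rfl⟩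
  have hMe : M = M4 a b c d e f g h k p := by
    ext i j
    fin_cases i <;> fin_cases j <;>
      simp [M4, ha, hb, hc', hp, hd, he, hf, hg, hh, hk, s13, s20, s21, s22, s32, s33]
  rw [ha] at s00
  rw [hb] at s01
  rw [hc'] at s02
  rw [hp] at s03
  rw [hd] at s10
  rw [he] at s11
  rw [hf] at s12
  rw [hg] at s23
  rw [hh] at s30
  rw [hk] at s31
  have c0 : 0 < c := by linarith
  have d0 : 0 < d := by linarith
  have e0 : 0 < e := by linarith
  have g0 : 0 < g := by linarith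
  rw [hMe, M4_charpoly] at hc
  obtain ⟨e3, e2, e1, e0'⟩ := quartic_eq _ _ _ _ hc
  have hea : e = a := by linarith
  subst hea
  -- the combination showing that the constant coefficient is positive
  have hX : 0 < f * k := mul_pos s12 s31
  have hY : 0 < c * h := mul_pos c0 s30
  have hK : 0 < k * d := mul_pos s31 d0
  have r1 : g * (f * k - c * h) = p * (e * h - k * d) := by linear_combination e1
  have r2 : (e * h - k * d) * (e * h * (f * k) - k * d * (c * h)) + p * h ^ 3 * (f * k) = 0 := by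
    have hg0 : g ≠ 0 := g0.ne'
    have : g * ((e * h - k * d) * (e * h * (f * k) - k * d * (c * h)) + p * h ^ 3 * (f * k))
        = 0 := by
      linear_combination (h * (k * d)) * e0' - g * h ^ 2 * (f * k) * e2
    rcases mul_eq_zero.1 this with h' | h'
    · exact absurd h' hg0
    · exact h'
  have r3 : 0 < p * h ^ 3 * (f * k) := by positivity
  rcases le_total (k * d) (e * h) with hle | hle
  · have t1 : 0 ≤ g * (f * k - c * h) := by
      rw [r1]; exact mul_nonneg s03.le (by linarith)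
    have t2 : c * h ≤ f * k := by
      by_contra hcon
      push Not at hcon
      have : g * (f * k - c * h) < 0 := mul_neg_of_pos_of_neg g0 (by linarith)
      linarith
    have t3 : k * d * (c * h) ≤ e * h * (f * k) :=
      mul_le_mul hle t2 hY.le (by positivity)
    have t4 : 0 ≤ (e * h - k * d) * (e * h * (f * k) - k * d * (c * h)) :=
      mul_nonneg (by linarith) (by linarith)
    linarith
  · have t1 : g * (f * k - c * h) ≤ 0 := by
      rw [r1]; exact mul_nonpos_of_nonneg_of_nonpos s03.le (by linarith)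
    have t2 : f * k ≤ c * h := by
      by_contra hcon
      push Not at hcon
      have : 0 < g * (f * k - c * h) := mul_pos g0 (by linarith)
      linarith
    have t3 : e * h * (f * k) ≤ k * d * (c * h) :=
      mul_le_mul hle t2 hX.le hK.le
    have t4 : 0 ≤ (e * h - k * d) * (e * h * (f * k) - k * d * (c * h)) :=
      mul_nonneg_of_nonpos_of_nonpos (by linarith) (by linarith)
    linarith

/-- The superpattern of order eight is not spectrally arbitrary. -/
theorem P8'_not_arbitrary : ¬ SpectrallyArbitrary (P8 P4') := by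
  intro hS
  obtain ⟨A, hA, hAc⟩ := hS (X ^ 8) (monic_X_pow 8) (natDegree_X_pow 8)
  set B := A.reindex idx.symm idx.symm with hB
  have hBs : ∀ x y, SignType.sign (B x y) = PS P4' x y := by
    intro x y
    have := hA (idx x) (idx y)
    simpa [hB, P8] using this
  have hz1 : B.toBlocks₁₂ = 0 := by
    ext i j
    have := hBs (Sum.inl i) (Sum.inr j)
    simpa [PS, toBlocks₁₂] using this
  have hBc : B.charpoly = X ^ 8 := by rw [hB, charpoly_reindex, hAc]
  have hBf : B = fromBlocks B.toBlocks₁₁ 0 B.toBlocks₂₁ B.toBlocks₂₂ := by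
    rw [← hz1, fromBlocks_toBlocks]
  rw [hBf, charpoly_fromBlocks_zero₁₂] at hBc
  have hdvd : B.toBlocks₁₁.charpoly ∣ X ^ 8 := ⟨_, hBc.symm⟩
  obtain ⟨i, hi8, hi⟩ := (dvd_prime_pow (prime_X (R := ℝ)) 8).1 hdvd
  have hmon : B.toBlocks₁₁.charpoly = X ^ i :=
    eq_of_monic_of_associated (charpoly_monic _) (monic_X_pow i) hi
  have hdeg : B.toBlocks₁₁.charpoly.natDegree = 4 := by
    rw [charpoly_natDegree_eq_dim]; rfl
  have hi4 : i = 4 := by rw [hmon, natDegree_X_pow] at hdeg; exact hdeg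
  refine P4'_not_nilpotent B.toBlocks₁₁ ?_ (hi4 ▸ hmon)
  intro i j
  have := hBs (Sum.inl i) (Sum.inl j)
  simpa [PS, toBlocks₁₁] using this

/-- The second pattern is a superpattern of the first. -/
theorem P8'_superpattern : Superpattern (P8 P4') (P8 P4) := by
  have h4 : ∀ x y : Fin 4, P4 x y ≠ 0 → P4' x y = P4 x y := by
    intro x y
    fin_cases x <;> fin_cases y <;> simp [P4, P4']
  have key : ∀ x y, PS P4 x y ≠ 0 → PS P4' x y = PS P4 x y := by
    rintro (i | i) (j | j)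
    · simpa [PS] using h4 i j
    · simp [PS]
    · simp [PS]
    · simp [PS]
  intro i j
  exact key (idx.symm i) (idx.symm j)

/-- There is a spectrally arbitrary sign pattern with a superpattern that is not spectrally
arbitrary. -/
theorem result : ∃ (n : ℕ) (S S' : Matrix (Fin n) (Fin n) SignType),
    SpectrallyArbitrary S ∧ Superpattern S' S ∧ ¬ SpectrallyArbitrary S' :=
  ⟨8, P8 P4, P8 P4', P8_arbitrary, P8'_superpattern, P8'_not_arbitrary⟩

end Pool.Agent.Results.MP_557f7f_co.SuperpatternFails
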